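import Pool.Agent.Y245.HS.Final

/-!
# Genus two, `n ≥ 4`: no collection of class functions is spanning on the Hitchin component

All definitions are in `Pool/Agent/Y245/HS/HDefs.lean` (and the files it imports).
-/

set_option autoImplicit false

open scoped MatrixGroups

namespace Pool.Agent.Results.MP_1d68f0_gt.HitchinNotSpanning

open Pool.Agent.H225R3.CV Pool.Agent.H225R3.Scc Pool.Agent.Y245.HS

/-- Let `n = m + 1 ≥ 4`, let `S` be the closed orientable surface of genus two, and let `σ` be the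
Fuchsian point of the Hitchin component given by any hyperbolic structure on `S`. There is a
nonzero tangent vector at `[σ]` (the velocity `u` of a curve `s` of homomorphisms) on which the
differentials of all `f_γ` vanish, `f` any differentiable class function and `γ` simple; so the
differentials do not span the cotangent space, for any collection `F`. -/
theorem result (m : ℕ) (hm : 3 ≤ m) (ρ₀ : SurfaceGroup 2 →* SL(2, ℝ)) (h₀ : IsFuchsian ρ₀) :
    fuchsianPoint m ρ₀ ∈ Hitchin m ∧
    (∃ (s : ℝ → HRep (m + 1)) (u : SurfaceGroup 2 → Matrix (Fin (m + 1)) (Fin (m + 1)) ℝ),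
      s 0 = fuchsianPoint m ρ₀ ∧ HasVelocity s u ∧ ¬ IsOrbitDirection (fuchsianPoint m ρ₀) u ∧
      ∀ f : PSLR (m + 1) → ℝ, IsDiffClass f → ∀ γ, IsSimple γ →
        HasDerivAt (fun t => f (s t γ)) 0 0) ∧
    ∀ F : Set (PSLR (m + 1) → ℝ), (∀ f ∈ F, IsDiffClass f) →
      ¬ SpanningAt F (fuchsianPoint m ρ₀) ∧ ¬ IsSpanning F (Hitchin m) := by
  have hmem : fuchsianPoint m ρ₀ ∈ Hitchin m := ⟨ρ₀, h₀, mem_connectedComponent⟩
  refine ⟨hmem, ?_, fun F hF => ⟨not_spanning hm h₀.purelyHyperbolic hF,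
    fun h => not_spanning hm h₀.purelyHyperbolic hF (h _ hmem)⟩⟩
  obtain ⟨r, u, hr0, hr, hs, hne⟩ := main_curve hm h₀.purelyHyperbolic
  have h0 : (proj (m + 1)).comp (r 0) = fuchsianPoint m ρ₀ := by
    rw [hr0]; rfl
  refine ⟨fun t => (proj (m + 1)).comp (r t), u, h0, fun γ => ⟨fun t => r t γ, fun t => rfl, hr γ⟩,
    ?_, hs⟩
  rintro ⟨X, hX⟩
  apply hne
  refine ⟨X, fun γ => hX γ (r 0 γ) ?_⟩
  rw [← h0]
  rfl

end Pool.Agent.Results.MP_1d68f0_gt.HitchinNotSpanning
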